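import Pool.Agent.helper747_lr.Sys

/-!
The average of the pseudo-expectations over all right-hand sides.
-/

set_option autoImplicit false

namespace Pool.Agent.helper747_lr

open Finset Pool.Agent.W888.GX
open scoped Matrix

variable {n m : ℕ}

/-- the left-hand sides -/
def lhs (c : Fin m → Fin 3 → Fin n) (x : Fin n → ZMod 2) (j : Fin m) : ZMod 2 :=
  ∑ i, x (c j i)

theorem rs_dot (c : Fin m → Fin 3 → Fin n) (a : Fin m → ZMod 2) (x : Fin n → ZMod 2) :
    rs (row c) a ⬝ᵥ x = a ⬝ᵥ lhs c x := by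
  unfold rs dotProduct
  simp only [Finset.sum_mul]
  rw [Finset.sum_comm]
  refine Finset.sum_congr rfl fun j _ => ?_
  have h := row_dot c j x
  unfold dotProduct at h
  show _ = a j * ∑ i, x (c j i)
  rw [← h, Finset.mul_sum]
  refine Finset.sum_congr rfl fun v _ => ?_
  ring

/-- the functional for the right-hand side `b` -/
noncomputable def Lb (c : Fin m → Fin 3 → Fin n) (r : ℕ) (b : Fin m → ZMod 2) :
    ((Fin n → ZMod 2) → ℝ) →ₗ[ℝ] ℝ :=
  Lf (ell (row c) b (∅ : Finset (Fin n))ᶜ univ r 0)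

theorem Lb_eq (c : Fin m → Fin 3 → Fin n) (r : ℕ)
    (hE : Exp (row c) (∅ : Finset (Fin n))ᶜ univ (2 * r)) (b : Fin m → ZMod 2)
    (f : (Fin n → ZMod 2) → ℝ) :
    Lb c r b f = ∑ a ∈ univ.filter (fun a : Fin m → ZMod 2 => wt a ≤ r),
      chi a b * hat f (rs (row c) a) := by
  classical
  have hder : ∀ a : Fin m → ZMod 2, wt a ≤ r →
      Der (row c) (∅ : Finset (Fin n))ᶜ univ r (rs (row c) a) a := fun a ha =>
    ⟨fun j hj => absurd (mem_univ j) hj, ha, fun v _ => rfl⟩
  have hinj : Set.InjOn (rs (row c)) (univ.filter fun a : Fin m → ZMod 2 => wt a ≤ r) := by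
    intro a ha a' ha' h
    have ha2 : wt a ≤ r := (mem_filter.1 ha).2
    have ha2' : wt a' ≤ r := (mem_filter.1 ha').2
    have h1 := hder a ha2
    rw [h] at h1
    exact der_unique hE h1 (hder a' ha2')
  show ∑ y, ell (row c) b (∅ : Finset (Fin n))ᶜ univ r 0 y * hat f y = _
  have h1 : ∑ y, ell (row c) b (∅ : Finset (Fin n))ᶜ univ r 0 y * hat f y =
      ∑ y ∈ (univ.filter fun a : Fin m → ZMod 2 => wt a ≤ r).image (rs (row c)),
        ell (row c) b (∅ : Finset (Fin n))ᶜ univ r 0 y * hat f y := by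
    symm
    refine Finset.sum_subset (subset_univ _) fun y _ hy => ?_
    have : ell (row c) b (∅ : Finset (Fin n))ᶜ univ r 0 y = 0 := by
      by_contra hne
      obtain ⟨a, ha⟩ := ell_ne hne
      apply hy
      rw [mem_image]
      refine ⟨a, mem_filter.2 ⟨mem_univ _, ha.2.1⟩, ?_⟩
      funext v
      exact (ha.2.2 v (by simp)).symm
    rw [this, zero_mul]
  rw [h1, Finset.sum_image hinj]
  refine Finset.sum_congr rfl fun a ha => ?_
  rw [ell_eq hE (hder a (mem_filter.1 ha).2), dotProduct_zero, add_zero]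
  rfl

/-- the average over all right-hand sides -/
theorem avg_rhs (c : Fin m → Fin 3 → Fin n) (r : ℕ)
    (hE : Exp (row c) (∅ : Finset (Fin n))ᶜ univ (2 * r))
    (F : (Fin m → ZMod 2) → (Fin n → ZMod 2) → ℝ)
    (hF : ∀ x, (fun b => F b x) ∈ LowDegree (Fin m) (ZMod 2) r) :
    (∑ b, Lb c r b (F b)) * 2 ^ n = 2 ^ m * ∑ x, F (lhs c x) x := by
  classical
  have h1 : ∀ a : Fin m → ZMod 2, ∑ b, chi a b * hat (F b) (rs (row c) a) =
      (1 / 2 ^ n) * ∑ x, 2 ^ m * (hat (fun b => F b x) a * chi a (lhs c x)) := by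
    intro a
    unfold hat
    rw [Fintype.card_fin, Fintype.card_fin]
    have h2 : ∀ b, chi a b * (1 / 2 ^ n * ∑ x, F b x * chi (rs (row c) a) x) =
        1 / 2 ^ n * ∑ x, chi a b * (F b x * chi a (lhs c x)) := by
      intro b
      rw [mul_left_comm, Finset.mul_sum]
      congr 1
      refine Finset.sum_congr rfl fun x _ => ?_
      have : chi (rs (row c) a) x = chi a (lhs c x) := by
        unfold chi
        rw [rs_dot]
      rw [this]
    rw [Finset.sum_congr rfl fun b _ => h2 b, ← Finset.mul_sum, Finset.sum_comm]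
    congr 1
    refine Finset.sum_congr rfl fun x _ => ?_
    have h3 : (2 : ℝ) ^ m ≠ 0 := by positivity
    have h4 : (2 : ℝ) ^ m * (1 / 2 ^ m * (∑ b, F b x * chi a b) * chi a (lhs c x)) =
        (∑ b, F b x * chi a b) * chi a (lhs c x) := by
      field_simp
    rw [h4, Finset.sum_mul]
    refine Finset.sum_congr rfl fun b _ => ?_
    ring
  have h2 : ∑ b, Lb c r b (F b) = ∑ a ∈ univ.filter (fun a : Fin m → ZMod 2 => wt a ≤ r),
      (1 / 2 ^ n) * ∑ x, 2 ^ m * (hat (fun b => F b x) a * chi a (lhs c x)) := by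
    rw [Finset.sum_congr rfl fun b _ => Lb_eq c r hE b (F b), Finset.sum_comm]
    exact Finset.sum_congr rfl fun a _ => h1 a
  have h3 : ∀ x, ∑ a ∈ univ.filter (fun a : Fin m → ZMod 2 => wt a ≤ r),
      hat (fun b => F b x) a * chi a (lhs c x) = F (lhs c x) x := by
    intro x
    have h4 := inversion (fun b => F b x) (lhs c x)
    beta_reduce at h4
    rw [h4]
    refine Finset.sum_subset (subset_univ _) fun a _ ha => ?_
    rw [mem_filter] at ha
    push Not at ha
    rw [hat_low (hF x) a (ha (mem_univ _)), zero_mul]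
  rw [h2, ← Finset.mul_sum, Finset.sum_comm]
  have h5 : ∀ x, ∑ a ∈ univ.filter (fun a : Fin m → ZMod 2 => wt a ≤ r),
      2 ^ m * (hat (fun b => F b x) a * chi a (lhs c x)) = 2 ^ m * F (lhs c x) x := by
    intro x
    rw [← Finset.mul_sum, h3]
  rw [Finset.sum_congr rfl fun x _ => h5 x, ← Finset.mul_sum]
  have h6 : (2 : ℝ) ^ n ≠ 0 := by positivity
  field_simp

end Pool.Agent.helper747_lr
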