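import Pool.Agent.helper747_lr.Trans
import Pool.Agent.helper747_ug.Main

/-!
Size lower bounds for local reductions from sparse systems of linear equations to games.
-/

set_option autoImplicit false

namespace Pool.Agent.helper747_lr

open Finset Pool.Agent.W888.GX Pool.Agent.TH522.UG Pool.Agent.helper747_ug

theorem viol_card {n m : ℕ} (c : Fin m → Fin 3 → Fin n) (b : Fin m → ZMod 2)
    (x : Fin n → ZMod 2) : viol c b x = ((univ.filter fun j => lhs c x j ≠ b j).card : ℝ) := by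
  unfold viol
  rw [Finset.card_filter]
  push_cast
  refine Finset.sum_congr rfl fun j _ => ?_
  show (if lhs c x j = b j then (0 : ℝ) else 1) = _
  by_cases h : lhs c x j = b j
  · rw [if_neg (not_not.2 h), if_pos h]
  · rw [if_pos h, if_neg h]

/-- the common part of the two bounds -/
theorem common (η : ℝ) (hη : 0 < η) :
    ∃ M : ℕ, ∃ c0 : ℝ, 0 < c0 ∧ c0 ≤ 1 ∧ ∃ n0 : ℕ, ∀ n : ℕ, n0 ≤ n →
      ∃ (m : ℕ) (c : Fin m → Fin 3 → Fin n),
        n ≤ 2 * m ∧ m ≤ M * n ∧ (∀ j, Function.Injective (c j)) ∧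
        (∃ b : Fin m → ZMod 2, ∀ x : Fin n → ZMod 2,
          (1 / 2 - η) * m ≤ ((univ.filter fun j => lhs c x j ≠ b j).card : ℝ)) ∧
        ∀ (V E A : Type) [Fintype V] [DecidableEq V] [Fintype E] [Fintype A] [DecidableEq A]
          (s t : E → V)
          (R : E → (Fin m → ZMod 2) → Finset (A × A)) (h : (Fin n → ZMod 2) → V → A)
          (w q k : ℕ) (κ : ℝ),
          (∀ e, ∃ S : Finset (Fin m), S.card ≤ q ∧ Rd S (R e)) → (q : ℝ) ≤ c0 * n →
          (∀ v, ∃ T : Finset (Fin n), T.card ≤ w ∧ Rd T fun x => h x v) →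
          κ * (Fintype.card E : ℝ) * 2 ^ n ≤ ∑ x : Fin n → ZMod 2,
            ((univ.filter fun e => (h x (s e), h x (t e)) ∈ R e (lhs c x)).card : ℝ) →
          ((k : ℝ) + 2) * w ≤ c0 * n →
          ∃ b : Fin m → ZMod 2, (∀ x : Fin n → ZMod 2,
            (1 / 2 - η) * m ≤ ((univ.filter fun j => lhs c x j ≠ b j).card : ℝ)) ∧
            ∃ L : ((V → A) → ℝ) →ₗ[ℝ] ℝ, Mixed k L ∧
              (κ - 1 / 2 ^ n) * (Fintype.card E : ℝ) ≤ ∑ e, L (rel (R e b) (s e) (t e)) := by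
  classical
  obtain ⟨M, hM, c0, hc0, n0, h0⟩ := exists_sys η hη
  refine ⟨M, min (c0 / 8) 1, lt_min (by positivity) one_pos, min_le_right _ _, n0 + 1,
    fun n hn => ?_⟩
  obtain ⟨m, c, r, h1, h2, h3, h4, h5, h6, h7⟩ := h0 n (by omega)
  have hn1 : 1 ≤ n := by omega
  have hn0 : (0 : ℝ) ≤ n := Nat.cast_nonneg _
  have hmin : min (c0 / 8) 1 * (n : ℝ) ≤ c0 / 8 * n :=
    mul_le_mul_of_nonneg_right (min_le_left _ _) hn0
  refine ⟨m, c, h1, h2, h3, ?_, ?_⟩
  · by_contra hcon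
    push Not at hcon
    have h8 : (univ.filter fun b : Fin m → ZMod 2 => ¬ ∀ x, (1 / 2 - η) * m ≤ viol c b x) =
        univ := by
      refine filter_true_of_mem fun b _ => ?_
      obtain ⟨x, hx⟩ := hcon b
      intro hall
      have := hall x
      rw [viol_card] at this
      linarith
    rw [h8, card_univ, Fintype.card_fun, ZMod.card, Fintype.card_fin] at h7
    push_cast at h7
    have h9 : (0 : ℝ) < 2 ^ m := by positivity
    have h10 : (1 : ℝ) < 2 ^ n := one_lt_pow₀ (by norm_num) (by omega)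
    nlinarith
  · intro V E A _ _ _ _ _ s t R h w q k κ hreads hq hloc hcomp hk
    have hq' : q ≤ r := by
      have : (q : ℝ) ≤ r := by
        have : 0 ≤ c0 * n := by positivity
        linarith
      exact_mod_cast this
    have hk' : 8 * ((k + 2) * w) ≤ r := by
      have : (8 : ℝ) * (((k : ℝ) + 2) * w) ≤ r := by linarith
      exact_mod_cast this
    obtain ⟨b, hb, L, hL, hv⟩ := exists_rhs c r hn1 h6 η (by convert h7) s t R h w q k κ hreads hq'
      hloc (by convert hcomp) hk'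
    refine ⟨b, fun x => ?_, L, hL, hv⟩
    rw [← viol_card]
    exact hb x

/-- graph of a permutation -/
def gr {A : Type} [Fintype A] [DecidableEq A] (π : Equiv.Perm A) : Finset (A × A) :=
  univ.filter fun p => π p.1 = p.2

theorem mem_gr {A : Type} [Fintype A] [DecidableEq A] (π : Equiv.Perm A) (a b : A) :
    (a, b) ∈ gr π ↔ π a = b := by
  unfold gr; simp

/-- unique games, completeness close to one -/
theorem size_unique (η : ℝ) (hη : 0 < η) :
    ∃ M : ℕ, ∃ c0 : ℝ, 0 < c0 ∧ ∃ n0 : ℕ, ∀ n : ℕ, n0 ≤ n →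
      ∃ (m : ℕ) (c : Fin m → Fin 3 → Fin n),
        n ≤ 2 * m ∧ m ≤ M * n ∧ (∀ j, Function.Injective (c j)) ∧
        (∃ b : Fin m → ZMod 2, ∀ x : Fin n → ZMod 2,
          (1 / 2 - η) * m ≤ ((univ.filter fun j => lhs c x j ≠ b j).card : ℝ)) ∧
        ∀ (V E A : Type) [Fintype V] [Fintype E] [Fintype A] [DecidableEq A]
          (s t : E → V)
          (π : E → (Fin m → ZMod 2) → Equiv.Perm A) (h : (Fin n → ZMod 2) → V → A)
          (w q : ℕ) (ε γ ρ : ℝ),
          (∀ e, ∃ S : Finset (Fin m), S.card ≤ q ∧ ∀ b b', (∀ j ∈ S, b j = b' j) →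
            π e b = π e b') →
          (∀ v, ∃ T : Finset (Fin n), T.card ≤ w ∧ ∀ x x', (∀ i ∈ T, x i = x' i) →
            h x v = h x' v) →
          ∑ x : Fin n → ZMod 2, ((univ.filter fun e => π e (lhs c x) (h x (s e)) ≠
            h x (t e)).card : ℝ) ≤ ε * Fintype.card E * 2 ^ n →
          (q : ℝ) ≤ c0 * n → 1 ≤ w → 1 ≤ ε * 2 ^ n → 0 < γ → γ < 1 → 0 < ρ → ρ ≤ 1 →
          2 ^ 31 * (ε * Real.log (2 / ρ)) ≤ ρ * γ ^ 2 →
          (∀ b : Fin m → ZMod 2, (∀ x : Fin n → ZMod 2,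
            (1 / 2 - η) * m ≤ ((univ.filter fun j => lhs c x j ≠ b j).card : ℝ)) →
            ∀ X : V → A, ((univ.filter fun e => π e b (X (s e)) = X (t e)).card : ℝ) <
              (1 - γ) * Fintype.card E) →
          (c0 * n / (w * Real.log (2 / γ))) ^ (1 / ρ) < Fintype.card V := by
  classical
  obtain ⟨M, c1, hc1, hc11, n0, h0⟩ := common η hη
  refine ⟨M, c1 / 2 ^ 32, by positivity, n0 + 1, fun n hn => ?_⟩
  obtain ⟨m, c, h1, h2, h3, h4, h5⟩ := h0 n (by omega)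
  refine ⟨m, c, h1, h2, h3, h4, ?_⟩
  intro V E A _ _ _ _ s t π h w q ε γ ρ hreads hloc hcomp hq hw hε hγ hγ1 hρ hρ1 hερ hsound
  have hn1 : 1 ≤ n := by omega
  have hn0 : (0 : ℝ) < n := by exact_mod_cast hn1
  have hw0 : (0 : ℝ) < w := by exact_mod_cast hw
  have hw1 : (1 : ℝ) ≤ w := by exact_mod_cast hw
  have h2n : (0 : ℝ) < 2 ^ n := by positivity
  have hε0 : 0 < ε := by
    by_contra hcon
    push Not at hcon
    have := mul_nonpos_of_nonpos_of_nonneg hcon h2n.le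
    linarith
  have hlogγ : 0 < Real.log (2 / γ) := Real.log_pos (by rw [lt_div_iff₀ hγ]; linarith)
  have hlogγ2 : (1 : ℝ) / 2 < Real.log (2 / γ) := by
    have h6 : Real.log 2 ≤ Real.log (2 / γ) := by
      refine Real.log_le_log (by norm_num) ?_
      rw [le_div_iff₀ hγ]
      linarith
    have := Real.log_two_gt_d9
    linarith
  by_contra hcon
  push Not at hcon
  -- the game is not empty
  obtain ⟨b0, hb0⟩ := h4
  have hE0 : (0 : ℝ) < Fintype.card E := by
    have h6 := hsound b0 hb0 (h 0)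
    have h7 : (0 : ℝ) ≤ ((univ.filter fun e => π e b0 (h 0 (s e)) = h 0 (t e)).card : ℝ) :=
      Nat.cast_nonneg _
    by_contra hc
    push Not at hc
    have : (1 - γ) * (Fintype.card E : ℝ) ≤ 0 := mul_nonpos_of_nonneg_of_nonpos (by linarith) hc
    linarith
  have hV1 : (1 : ℝ) ≤ Fintype.card V := by
    have h6 : 0 < Fintype.card E := by exact_mod_cast hE0
    obtain ⟨e⟩ := Fintype.card_pos_iff.1 h6
    have : 0 < Fintype.card V := Fintype.card_pos_iff.2 ⟨s e⟩
    exact_mod_cast this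
  obtain ⟨Y, hY⟩ : ∃ Y : ℝ, Y = c1 / 2 ^ 32 * n / (w * Real.log (2 / γ)) := ⟨_, rfl⟩
  rw [← hY, one_div] at hcon
  have hY0 : 0 < Y := by rw [hY]; positivity
  have hVρ : (Fintype.card V : ℝ) ^ ρ ≤ Y := by
    calc (Fintype.card V : ℝ) ^ ρ ≤ (Y ^ ρ⁻¹) ^ ρ :=
          Real.rpow_le_rpow (Nat.cast_nonneg _) hcon hρ.le
      _ = Y := Real.rpow_inv_rpow hY0.le hρ.ne'
  have hY1 : 1 ≤ Y := le_trans (Real.one_le_rpow hV1 hρ.le) hVρ
  have hYw : Y * (w * Real.log (2 / γ)) = c1 / 2 ^ 32 * n := by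
    rw [hY]
    field_simp
  obtain ⟨k, hk⟩ : ∃ k : ℕ, k = ⌈(1073741824 : ℝ) *
    (Real.log (2 / γ) * (Fintype.card V : ℝ) ^ ρ)⌉₊ := ⟨_, rfl⟩
  have hk1 : (1073741824 : ℝ) * (Real.log (2 / γ) * (Fintype.card V : ℝ) ^ ρ) ≤ k := by
    rw [hk]; exact Nat.le_ceil _
  have hk2 : (k : ℝ) < 1073741824 * (Real.log (2 / γ) * (Fintype.card V : ℝ) ^ ρ) + 1 := by
    rw [hk]; exact Nat.ceil_lt_add_one (by positivity)
  have hkw : ((k : ℝ) + 2) * w ≤ c1 * n := by
    have h6 : Real.log (2 / γ) * (Fintype.card V : ℝ) ^ ρ ≤ Real.log (2 / γ) * Y :=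
      mul_le_mul_of_nonneg_left hVρ hlogγ.le
    have h7 : (k : ℝ) + 2 ≤ 1073741824 * (Real.log (2 / γ) * Y) + 3 := by
      have := mul_le_mul_of_nonneg_left h6 (by norm_num : (0 : ℝ) ≤ 1073741824)
      linarith
    have h8 : (1 : ℝ) / 2 ≤ Real.log (2 / γ) * Y := by
      have := mul_le_mul hlogγ2.le hY1 (by norm_num) hlogγ.le
      linarith
    have h9 : (k : ℝ) + 2 ≤ 2 ^ 31 * (Real.log (2 / γ) * Y) := by
      norm_num
      linarith
    calc ((k : ℝ) + 2) * w ≤ 2 ^ 31 * (Real.log (2 / γ) * Y) * w :=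
          mul_le_mul_of_nonneg_right h9 hw0.le
      _ = 2 ^ 31 * (Y * (w * Real.log (2 / γ))) := by ring
      _ = 2 ^ 31 * (c1 / 2 ^ 32 * n) := by rw [hYw]
      _ ≤ c1 * n := by
          have : 0 ≤ c1 * n := by positivity
          norm_num
          linarith
  obtain ⟨b, hb, L, hL, hval⟩ := h5 V E A s t (fun e b => gr (π e b)) h w q k (1 - ε)
    (fun e => by
      obtain ⟨S, hS, hS'⟩ := hreads e
      exact ⟨S, hS, fun b b' hbb => by
        show gr (π e b) = gr (π e b')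
        rw [hS' b b' hbb]⟩)
    (by
      have : 0 ≤ c1 * n := by positivity
      have h6 : c1 / 2 ^ 32 * n ≤ c1 * n := by
        rw [div_mul_eq_mul_div]
        exact div_le_self this (by norm_num)
      linarith)
    (fun v => by
      obtain ⟨T, hT, hT'⟩ := hloc v
      exact ⟨T, hT, fun x x' hxx => hT' x x' hxx⟩)
    (by
      have h6 : ∀ x : Fin n → ZMod 2,
          ((univ.filter fun e => (h x (s e), h x (t e)) ∈ gr (π e (lhs c x))).card : ℝ) =
          Fintype.card E - ((univ.filter fun e => π e (lhs c x) (h x (s e)) ≠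
            h x (t e)).card : ℝ) := by
        intro x
        have h7 := Finset.card_filter_add_card_filter_not (s := (univ : Finset E))
          (fun e => π e (lhs c x) (h x (s e)) = h x (t e))
        rw [card_univ] at h7
        have h8 : (univ.filter fun e => (h x (s e), h x (t e)) ∈ gr (π e (lhs c x))) =
            univ.filter fun e => π e (lhs c x) (h x (s e)) = h x (t e) := by
          refine Finset.filter_congr fun e _ => ?_
          rw [mem_gr]
        rw [h8, ← h7]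
        push_cast
        ring
      rw [Finset.sum_congr rfl fun x _ => h6 x, Finset.sum_sub_distrib, Finset.sum_const,
        card_univ, Fintype.card_fun, ZMod.card, Fintype.card_fin, nsmul_eq_mul]
      push_cast
      have h9 : (1 - ε) * (Fintype.card E : ℝ) * 2 ^ n =
          2 ^ n * Fintype.card E - ε * Fintype.card E * 2 ^ n := by ring
      rw [h9]
      linarith)
    hkw
  have hval2 : (1 - 2 * ε) * (Fintype.card E : ℝ) ≤
      ∑ e, L (Pool.Agent.H647R3.UG.sat (s e) (t e) (π e b)) := by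
    have h6 : ∀ e, (rel (gr (π e b)) (s e) (t e) : (V → A) → ℝ) =
        Pool.Agent.H647R3.UG.sat (s e) (t e) (π e b) := by
      intro e
      funext x
      unfold rel Pool.Agent.H647R3.UG.sat
      simp only [mem_gr]
    rw [Finset.sum_congr rfl fun e _ => by rw [h6 e]] at hval
    refine le_trans ?_ hval
    refine mul_le_mul_of_nonneg_right ?_ hE0.le
    have h7 : 1 / (2 : ℝ) ^ n ≤ ε := by
      rw [div_le_iff₀ h2n]
      exact hε
    linarith
  have hfin := core (hier_mixed V A) s t (fun e => π e b) ρ γ (2 * ε) hρ hρ1 hγ hγ1 (by positivity)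
    (by
      have h6 : (1073741824 : ℝ) * (2 * ε * Real.log (2 / ρ)) =
          2 ^ 31 * (ε * Real.log (2 / ρ)) := by norm_num; ring
      rw [h6]
      exact hερ) k hk1 L hL hval2
  obtain ⟨X, hX⟩ := hfin
  have := hsound b hb X
  linarith

/-- `d`-to-`d` games of arbitrary completeness -/
theorem size_dtod (η : ℝ) (hη : 0 < η) :
    ∃ M : ℕ, ∃ c0 : ℝ, 0 < c0 ∧ ∃ n0 : ℕ, ∀ n : ℕ, n0 ≤ n →
      ∃ (m : ℕ) (c : Fin m → Fin 3 → Fin n),
        n ≤ 2 * m ∧ m ≤ M * n ∧ (∀ j, Function.Injective (c j)) ∧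
        (∃ b : Fin m → ZMod 2, ∀ x : Fin n → ZMod 2,
          (1 / 2 - η) * m ≤ ((univ.filter fun j => lhs c x j ≠ b j).card : ℝ)) ∧
        ∀ (V E A : Type) [Fintype V] [Fintype E] [Fintype A] [DecidableEq A]
          (s t : E → V)
          (R : E → (Fin m → ZMod 2) → Finset (A × A)) (h : (Fin n → ZMod 2) → V → A)
          (d w q : ℕ) (κ β : ℝ), 1 ≤ d →
          (∀ e b a, (univ.filter fun a' => (a, a') ∈ R e b).card ≤ d) →
          (∀ e b a', (univ.filter fun a => (a, a') ∈ R e b).card ≤ d) →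
          (∀ e, ∃ S : Finset (Fin m), S.card ≤ q ∧ ∀ b b', (∀ j ∈ S, b j = b' j) →
            R e b = R e b') →
          (∀ v, ∃ T : Finset (Fin n), T.card ≤ w ∧ ∀ x x', (∀ i ∈ T, x i = x' i) →
            h x v = h x' v) →
          κ * Fintype.card E * 2 ^ n ≤ ∑ x : Fin n → ZMod 2,
            ((univ.filter fun e => (h x (s e), h x (t e)) ∈ R e (lhs c x)).card : ℝ) →
          (q : ℝ) ≤ c0 * n → 1 ≤ w → 2 ≤ κ * 2 ^ n → κ ≤ 1 → 0 < β → β ≤ 1 →
          (∀ b : Fin m → ZMod 2, (∀ x : Fin n → ZMod 2,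
            (1 / 2 - η) * m ≤ ((univ.filter fun j => lhs c x j ≠ b j).card : ℝ)) →
            ∀ X : V → A, ((univ.filter fun e => (X (s e), X (t e)) ∈ R e b).card : ℝ) <
              (4 * d / κ) ^ (-(2 ^ 10 / β * Real.log (2 / β))) * Fintype.card E) →
          (c0 * n / (w * (4 * d / κ) ^ (2 ^ 10 * Real.log (2 / β)))) ^ (1 / β) <
            Fintype.card V := by
  classical
  obtain ⟨M, c1, hc1, hc11, n0, h0⟩ := common η hη
  refine ⟨M, c1 / 4, by positivity, n0 + 1, fun n hn => ?_⟩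
  obtain ⟨m, c, h1, h2, h3, h4, h5⟩ := h0 n (by omega)
  refine ⟨m, c, h1, h2, h3, h4, ?_⟩
  intro V E A _ _ _ _ s t R h d w q κ β hd hR1 hR2 hreads hloc hcomp hq hw hκ hκ1 hβ hβ1 hsound
  have hn1 : 1 ≤ n := by omega
  have hn0 : (0 : ℝ) < n := by exact_mod_cast hn1
  have hw0 : (0 : ℝ) < w := by exact_mod_cast hw
  have hd0 : (1 : ℝ) ≤ d := by exact_mod_cast hd
  have h2n : (0 : ℝ) < 2 ^ n := by positivity
  have hκ0 : 0 < κ := by
    by_contra hcon
    push Not at hcon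
    have := mul_nonpos_of_nonpos_of_nonneg hcon h2n.le
    linarith
  have hM4 : 4 ≤ 4 * (d : ℝ) / κ := by
    rw [le_div_iff₀ hκ0]
    nlinarith
  have hlog : 0 < Real.log (2 / β) := Real.log_pos (by rw [lt_div_iff₀ hβ]; linarith)
  obtain ⟨P, hP⟩ : ∃ P : ℝ, P = (4 * (d : ℝ) / κ) ^ (2 ^ 10 * Real.log (2 / β)) := ⟨_, rfl⟩
  have hP1 : 1 ≤ P := by
    rw [hP]
    exact Real.one_le_rpow (by linarith) (by positivity)
  rw [← hP]
  by_contra hcon
  push Not at hcon
  obtain ⟨b0, hb0⟩ := h4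
  have hE0 : (0 : ℝ) < Fintype.card E := by
    have h6 := hsound b0 hb0 (h 0)
    have h7 : (0 : ℝ) ≤ ((univ.filter fun e => (h 0 (s e), h 0 (t e)) ∈ R e b0).card : ℝ) :=
      Nat.cast_nonneg _
    by_contra hc
    push Not at hc
    have : (4 * (d : ℝ) / κ) ^ (-(2 ^ 10 / β * Real.log (2 / β))) * (Fintype.card E : ℝ) ≤ 0 :=
      mul_nonpos_of_nonneg_of_nonpos (Real.rpow_nonneg (by linarith) _) hc
    linarith
  have hV1 : (1 : ℝ) ≤ Fintype.card V := by
    have h6 : 0 < Fintype.card E := by exact_mod_cast hE0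
    obtain ⟨e⟩ := Fintype.card_pos_iff.1 h6
    have : 0 < Fintype.card V := Fintype.card_pos_iff.2 ⟨s e⟩
    exact_mod_cast this
  obtain ⟨Y, hY⟩ : ∃ Y : ℝ, Y = c1 / 4 * n / (w * P) := ⟨_, rfl⟩
  rw [← hY, one_div] at hcon
  have hY0 : 0 < Y := by rw [hY]; positivity
  have hVβ : (Fintype.card V : ℝ) ^ β ≤ Y := by
    calc (Fintype.card V : ℝ) ^ β ≤ (Y ^ β⁻¹) ^ β :=
          Real.rpow_le_rpow (Nat.cast_nonneg _) hcon hβ.le
      _ = Y := Real.rpow_inv_rpow hY0.le hβ.ne'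
  have hY1 : 1 ≤ Y := le_trans (Real.one_le_rpow hV1 hβ.le) hVβ
  have hYw : Y * (w * P) = c1 / 4 * n := by
    rw [hY]
    field_simp
  obtain ⟨k, hk⟩ : ∃ k : ℕ, k = ⌈P * (Fintype.card V : ℝ) ^ β⌉₊ := ⟨_, rfl⟩
  have hk1 : P * (Fintype.card V : ℝ) ^ β ≤ k := by
    rw [hk]; exact Nat.le_ceil _
  have hk2 : (k : ℝ) < P * (Fintype.card V : ℝ) ^ β + 1 := by
    rw [hk]; exact Nat.ceil_lt_add_one (by positivity)
  have hkw : ((k : ℝ) + 2) * w ≤ c1 * n := by
    have h6 : P * (Fintype.card V : ℝ) ^ β ≤ P * Y :=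
      mul_le_mul_of_nonneg_left hVβ (by linarith)
    have h8 : 1 ≤ P * Y := by nlinarith
    have h9 : (k : ℝ) + 2 ≤ 4 * (P * Y) := by linarith
    calc ((k : ℝ) + 2) * w ≤ 4 * (P * Y) * w := mul_le_mul_of_nonneg_right h9 hw0.le
      _ = 4 * (Y * (w * P)) := by ring
      _ = 4 * (c1 / 4 * n) := by rw [hYw]
      _ = c1 * n := by ring
      _ ≤ c1 * n := le_rfl
  obtain ⟨b, hb, L, hL, hval⟩ := h5 V E A s t R h w q k κ
    (fun e => by
      obtain ⟨S, hS, hS'⟩ := hreads e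
      exact ⟨S, hS, fun b b' hbb => hS' b b' hbb⟩)
    (by
      have : 0 ≤ c1 * n := by positivity
      linarith)
    (fun v => by
      obtain ⟨T, hT, hT'⟩ := hloc v
      exact ⟨T, hT, fun x x' hxx => hT' x x' hxx⟩)
    (by convert hcomp)
    hkw
  have hval2 : κ / 2 * (Fintype.card E : ℝ) ≤ ∑ e, L (rel (R e b) (s e) (t e)) := by
    refine le_trans ?_ hval
    refine mul_le_mul_of_nonneg_right ?_ hE0.le
    have h7 : 1 / (2 : ℝ) ^ n ≤ κ / 2 := by
      rw [div_le_iff₀ h2n]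
      linarith
    linarith
  have he : 2 * (d : ℝ) / (κ / 2) = 4 * d / κ := by
    field_simp
    ring
  have hfin := Pool.Agent.helper747_ug.main s t (fun e => R e b) (κ / 2) β d k L (by positivity)
    (by linarith) hβ hβ1 hd (fun e => hR1 e b) (fun e => hR2 e b)
    (by rw [he, ← hP]; exact hk1) hL hval2
  rw [he] at hfin
  obtain ⟨X, hX⟩ := hfin
  have := hsound b hb X
  linarith

end Pool.Agent.helper747_lr
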