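import Pool.Agent.W888.GX.Thr
import Pool.Agent.W888.GX.Avg
import Pool.Agent.H30R2.NS.Gap

/-!
Sparse systems of linear equations modulo two: expansion, and few right-hand sides that are close
to satisfiable.
-/

set_option autoImplicit false

namespace Pool.Agent.helper747_lr

open Finset Pool.Agent.W888.GX

open Classical in
/-- sparse expanding systems such that almost all right-hand sides are far from satisfiable -/
theorem exists_sys (δ : ℝ) (hδ : 0 < δ) :
    ∃ M : ℕ, 1 ≤ M ∧ ∃ c0 : ℝ, 0 < c0 ∧ ∃ n0 : ℕ, ∀ n : ℕ, n0 ≤ n →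
      ∃ (m : ℕ) (c : Fin m → Fin 3 → Fin n) (r : ℕ),
        n ≤ 2 * m ∧ m ≤ M * n ∧ (∀ j, Function.Injective (c j)) ∧ c0 * n ≤ r ∧ 1 ≤ r ∧
        Exp (row c) (∅ : Finset (Fin n))ᶜ univ (2 * r) ∧
        ((univ.filter fun b : Fin m → ZMod 2 => ¬ ∀ x, (1 / 2 - δ) * m ≤ viol c b x).card : ℝ) *
          2 ^ n ≤ 2 ^ m := by
  obtain ⟨M, hM⟩ := exists_nat_gt (2 * Real.log 2 / δ ^ 2)
  have hlog : 0 < Real.log 2 := Real.log_pos (by norm_num)
  have hM0 : (0 : ℝ) < M := lt_of_le_of_lt (by positivity) hM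
  have hM1 : 1 ≤ M := by
    have : 0 < M := by exact_mod_cast hM0
    omega
  obtain ⟨ξ, hξd⟩ : ∃ ξ : ℝ, ξ = 1 / (6 * 32 ^ 2) := ⟨_, rfl⟩
  have hξ0 : 0 < ξ := by rw [hξd]; positivity
  have hpξ : (32 : ℝ) ^ 2 * (6 * ξ) ≤ 1 := by
    rw [hξd]
    norm_num
  obtain ⟨K, hK⟩ : ∃ K : ℕ, K = 16384 * 3 ^ 12 * M ^ 4 := ⟨_, rfl⟩
  have hKpos : 0 < K := by
    rw [hK]
    have : 0 < M := by omega
    positivity
  have hK0 : (0 : ℝ) < K := by exact_mod_cast hKpos
  refine ⟨M, hM1, 1 / (2 * (K : ℝ)), by positivity, 24 * K + 6 * 32 ^ 2, ?_⟩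
  intro n hn
  have hn1 : 1 ≤ n := by omega
  have hn0 : (0 : ℝ) < n := by exact_mod_cast hn1
  obtain ⟨r0, hr0⟩ : ∃ r0, r0 = n / K := ⟨_, rfl⟩
  have hr24 : 24 ≤ r0 := by
    rw [hr0, Nat.le_div_iff_mul_le hKpos]
    omega
  have hrn : r0 * K ≤ n := by
    rw [hr0]
    exact Nat.div_mul_le_self n K
  obtain ⟨c, hc1, hc2⟩ := exists_hyp3 (M * n) n (2 * r0) 2 ξ hn1
    (Nat.le_mul_of_pos_left n hM1)
    (by
      have h4 : 4 ≤ K := by
        rw [hK]
        calc 4 ≤ 16384 * 3 ^ 12 * 1 := by norm_num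
          _ ≤ _ := Nat.mul_le_mul_left _ (Nat.one_le_pow _ _ (by omega))
      calc 2 * (2 * r0) = r0 * 4 := by ring
        _ ≤ r0 * K := Nat.mul_le_mul_left _ h4
        _ ≤ n := hrn)
    (by
      have h1 : (r0 : ℝ) * K ≤ n := by exact_mod_cast hrn
      push_cast
      calc 8192 * 3 ^ 12 * ((M : ℝ) * n) ^ 4 * (2 * r0) =
            ((r0 : ℝ) * (16384 * 3 ^ 12 * M ^ 4)) * n ^ 4 := by ring
        _ = ((r0 : ℝ) * K) * n ^ 4 := by
            rw [hK]
            push_cast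
            ring
        _ ≤ n * n ^ 4 := mul_le_mul_of_nonneg_right h1 (by positivity)
        _ = (n : ℝ) ^ 5 := by ring)
    (by
      rw [hξd, one_div, inv_mul_eq_div, one_le_div (by positivity)]
      exact_mod_cast (by omega : 6 * 32 ^ 2 ≤ n)) hpξ
  -- the good equations
  obtain ⟨G, hG⟩ : ∃ G : Finset (Fin (M * n)), G = univ.filter fun j => ¬ Bad ∅ (c j) := ⟨_, rfl⟩
  have hGc : 2 * Gᶜ.card ≤ M * n := by
    have h3 := hc2 ∅ (by rw [Finset.card_empty]; push_cast; positivity)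
    have h5 : Gᶜ = univ.filter fun j => Bad ∅ (c j) := by
      rw [hG]
      ext j
      simp only [mem_compl, mem_filter, mem_univ, true_and, not_not]
    rw [h5]
    exact h3
  have hGG : G.card + Gᶜ.card = M * n := by
    rw [Finset.card_add_card_compl, Fintype.card_fin]
  have hGhalf : M * n ≤ 2 * G.card := by omega
  have hmemG : ∀ i ∈ G, ¬ Bad ∅ (c i) := by
    intro i hi
    rw [hG, mem_filter] at hi
    exact hi.2
  let e : Fin G.card ≃ G := G.equivFin.symm
  obtain ⟨c', hc'⟩ : ∃ c' : Fin G.card → Fin 3 → Fin n, c' = fun j => c (e j).1 := ⟨_, rfl⟩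
  have hbad : ∀ j, ¬ Bad ∅ (c' j) := by
    intro j
    rw [hc']
    exact hmemG _ (e j).2
  refine ⟨G.card, c', r0, ?_, ?_, ?_, ?_, by omega, ?_, ?_⟩
  · have h4 : n ≤ M * n := Nat.le_mul_of_pos_left n hM1
    omega
  · omega
  · intro j
    have h2 := hbad j
    unfold Bad at h2
    rw [not_not] at h2
    exact h2.1
  · rw [one_div, inv_mul_eq_div, div_le_iff₀ (by positivity)]
    have h1 : n < (r0 + 1) * K := by
      have h2 : n < (n / K + 1) * K := by
        have := Nat.lt_div_mul_add (a := n) hKpos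
        calc n < n / K * K + K := this
          _ = _ := by ring
      rwa [← hr0] at h2
    have h3 : n ≤ r0 * (2 * K) := by
      calc n ≤ (r0 + 1) * K := h1.le
        _ ≤ (2 * r0) * K := Nat.mul_le_mul_right K (by omega)
        _ = _ := by ring
    exact_mod_cast h3
  · refine exp3_of c' ?_ ∅ univ fun j _ => hbad j
    intro J hJ1 hJ2
    have hinj : Function.Injective fun j : Fin G.card => (e j).1 := fun i j hij =>
      e.injective (Subtype.ext hij)
    have h1 := hc1 (J.map ⟨fun j => (e j).1, hinj⟩) (by rw [card_map]; exact hJ1)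
      (by rw [card_map]; exact hJ2)
    rw [card_map] at h1
    have h2 : img c (J.map ⟨fun j => (e j).1, hinj⟩) = img c' J := by
      unfold img
      rw [map_eq_image, image_biUnion, hc']
      rfl
    rw [h2] at h1
    exact h1
  · refine near_count hδ ?_ c'
    have h1 : (M : ℝ) * n ≤ 2 * G.card := by exact_mod_cast hGhalf
    have h2 : 2 * Real.log 2 < M * δ ^ 2 := by
      rwa [div_lt_iff₀ (by positivity)] at hM
    calc 2 * (Real.log 2 * n) = (2 * Real.log 2) * n := by ring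
      _ ≤ (M * δ ^ 2) * n := mul_le_mul_of_nonneg_right h2.le hn0.le
      _ = δ ^ 2 * (M * n) := by ring
      _ ≤ δ ^ 2 * (2 * G.card) := mul_le_mul_of_nonneg_left h1 (by positivity)
      _ = _ := by ring

end Pool.Agent.helper747_lr
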