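import Pool.Agent.helper747_lr.AvgRhs
import Pool.Agent.helper747_ug.Rel

/-!
Local reductions transport the pseudo-expectations of a system of equations to the mixed hierarchy
of the game, and for some right-hand side that is far from satisfiable the value is not smaller
than the average completeness.
-/

set_option autoImplicit false

namespace Pool.Agent.helper747_lr

open Finset Pool.Agent.W888.GX Pool.Agent.TH522.UG Pool.Agent.helper747_ug

/-- `f` is determined by the coordinates in `S` -/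
def Rd {ι X Y : Type} (S : Finset ι) (f : (ι → X) → Y) : Prop :=
  ∀ x y : ι → X, (∀ i ∈ S, x i = y i) → f x = f y

theorem mem_lowD {V A : Type} {D : ℕ} (S : Finset V) (hS : S.card ≤ D) (f : (V → A) → ℝ)
    (hf : Rd S f) : f ∈ LowDegree V A D :=
  Submodule.subset_span ⟨S, hS, hf⟩

variable {n m : ℕ} {V A E : Type} [Fintype V]

/-- transport along a local encoding -/
theorem mixed_of {D k w : ℕ} {L : ((Fin n → ZMod 2) → ℝ) →ₗ[ℝ] ℝ} (hL : IsPseudoExpectation D L)
    (h : (Fin n → ZMod 2) → V → A)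
    (hloc : ∀ v, ∃ T : Finset (Fin n), T.card ≤ w ∧ Rd T fun x => h x v)
    (hD : (k + 2) * w ≤ D) : Mixed k (L.comp (LinearMap.funLeft ℝ ℝ h)) := by
  classical
  choose T hT hR using hloc
  have hread : ∀ (W : Finset V) (f : (V → A) → ℝ), Dep W f → Rd (W.biUnion T) fun x => f (h x) := by
    intro W f hf x y hxy
    refine hf _ _ fun v hv => ?_
    exact hR v x y fun i hi => hxy i (mem_biUnion.2 ⟨v, hv, hi⟩)
  have hcard : ∀ W : Finset V, (W.biUnion T).card ≤ W.card * w := by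
    intro W
    exact card_biUnion_le.trans ((Finset.sum_le_card_nsmul W _ w fun v _ => hT v).trans
      (by rw [smul_eq_mul]))
  refine ⟨?_, fun W hW f hf hf0 => ?_, fun W hW g hg hg0 c => ?_⟩
  · exact hL.1
  · have h1 := hL.2 (fun x => Real.sqrt (f (h x)))
      (mem_lowD (W.biUnion T) ((hcard W).trans ((Nat.mul_le_mul_right w hW).trans hD)) _
        (hread W (fun x => Real.sqrt (f x)) fun x y hxy => congrArg Real.sqrt (hf x y hxy)))
    have h2 : (fun x => (fun x => Real.sqrt (f (h x))) x ^ 2) = fun x => f (h x) := by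
      funext x
      exact Real.sq_sqrt (hf0 _)
    rw [h2] at h1
    exact h1
  · have hmem : (fun x => ∑ v, Real.sqrt (g (h x)) * c v (h x v)) ∈
        LowDegree (Fin n) (ZMod 2) D := by
      have h0 : (fun x => ∑ v, Real.sqrt (g (h x)) * c v (h x v)) =
          ∑ v, fun x => Real.sqrt (g (h x)) * c v (h x v) := by
        funext x
        rw [Finset.sum_apply]
      rw [h0]
      refine Submodule.sum_mem _ fun v _ => ?_
      refine mem_lowD ((insert v W).biUnion T) ?_ _ ?_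
      · refine (hcard _).trans (le_trans (Nat.mul_le_mul_right w ?_) hD)
        have := card_insert_le v W
        omega
      · refine hread (insert v W) (fun x => Real.sqrt (g x) * c v (x v)) ?_
        intro x y hxy
        show Real.sqrt (g x) * c v (x v) = Real.sqrt (g y) * c v (y v)
        rw [hg x y fun i hi => hxy i (mem_insert_of_mem hi), hxy v (mem_insert_self _ _)]
    have h1 := hL.2 _ hmem
    have h2 : (fun x => (fun x => ∑ v, Real.sqrt (g (h x)) * c v (h x v)) x ^ 2) =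
        fun x => g (h x) * (∑ v, c v (h x v)) ^ 2 := by
      funext x
      show (∑ v, Real.sqrt (g (h x)) * c v (h x v)) ^ 2 = _
      rw [← Finset.mul_sum, mul_pow, Real.sq_sqrt (hg0 _)]
    rw [h2] at h1
    exact h1

open Classical in
/-- a right-hand side which is far from satisfiable and whose game has large relaxed value -/
theorem exists_rhs [DecidableEq V] [Fintype A] [DecidableEq A] [Fintype E] (c : Fin m → Fin 3 → Fin n)
    (r : ℕ) (hn : 1 ≤ n)
    (hE : Exp (row c) (∅ : Finset (Fin n))ᶜ univ (2 * r)) (δ : ℝ)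
    (hnear : ((univ.filter fun b : Fin m → ZMod 2 => ¬ ∀ x, (1 / 2 - δ) * m ≤ viol c b x).card : ℝ) *
          2 ^ n ≤ 2 ^ m)
    (s t : E → V) (R : E → (Fin m → ZMod 2) → Finset (A × A)) (h : (Fin n → ZMod 2) → V → A)
    (w q k : ℕ) (κ : ℝ)
    (hreads : ∀ e, ∃ S : Finset (Fin m), S.card ≤ q ∧ Rd S (R e)) (hq : q ≤ r)
    (hloc : ∀ v, ∃ T : Finset (Fin n), T.card ≤ w ∧ Rd T fun x => h x v)
    (hcomp : κ * (Fintype.card E : ℝ) * 2 ^ n ≤ ∑ x : Fin n → ZMod 2,
      ((univ.filter fun e => (h x (s e), h x (t e)) ∈ R e (lhs c x)).card : ℝ))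
    (hk : 8 * ((k + 2) * w) ≤ r) :
    ∃ b : Fin m → ZMod 2, (∀ x, (1 / 2 - δ) * m ≤ viol c b x) ∧
      ∃ L : ((V → A) → ℝ) →ₗ[ℝ] ℝ, Mixed k L ∧
        (κ - 1 / 2 ^ n) * (Fintype.card E : ℝ) ≤ ∑ e, L (rel (R e b) (s e) (t e)) := by
  choose S hS hRS using hreads
  have hpe : ∀ b, IsPseudoExpectation ((k + 2) * w) (Lb c r b) := fun b => pe hE _ hk
  have hmix : ∀ b, Mixed k ((Lb c r b).comp (LinearMap.funLeft ℝ ℝ h)) := fun b =>
    mixed_of (hpe b) h hloc le_rfl
  obtain ⟨val, hval⟩ : ∃ val : (Fin m → ZMod 2) → ℝ, val = fun b =>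
    ∑ e, ((Lb c r b).comp (LinearMap.funLeft ℝ ℝ h)) (rel (R e b) (s e) (t e)) := ⟨_, rfl⟩
  have hval0 : ∀ b, 0 ≤ val b := by
    intro b
    rw [hval]
    exact Finset.sum_nonneg fun e _ => rel_val_nonneg (hmix b) _ _ _
  have hval1 : ∀ b, val b ≤ Fintype.card E := by
    intro b
    rw [hval]
    calc ∑ e, ((Lb c r b).comp (LinearMap.funLeft ℝ ℝ h)) (rel (R e b) (s e) (t e))
        ≤ ∑ _e : E, (1 : ℝ) := Finset.sum_le_sum fun e _ => rel_val_le (hmix b) _ _ _
      _ = _ := by rw [Finset.sum_const, card_univ, nsmul_eq_mul, mul_one]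
  -- the average
  obtain ⟨F, hF⟩ : ∃ F : (Fin m → ZMod 2) → (Fin n → ZMod 2) → ℝ,
    F = fun b x => ∑ e, rel (R e b) (s e) (t e) (h x) := ⟨_, rfl⟩
  have hFlow : ∀ x, (fun b => F b x) ∈ LowDegree (Fin m) (ZMod 2) r := by
    intro x
    have h0 : (fun b => F b x) = ∑ e, fun b => rel (R e b) (s e) (t e) (h x) := by
      funext b
      rw [hF, Finset.sum_apply]
    rw [h0]
    refine Submodule.sum_mem _ fun e _ => ?_
    refine mem_lowD (S e) ((hS e).trans hq) _ ?_
    intro b b' hb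
    show rel (R e b) (s e) (t e) (h x) = rel (R e b') (s e) (t e) (h x)
    rw [hRS e b b' hb]
  have havg := avg_rhs c r hE F hFlow
  have hLF : ∀ b, Lb c r b (F b) = val b := by
    intro b
    rw [hval]
    show Lb c r b (F b) = ∑ e, Lb c r b (fun x => rel (R e b) (s e) (t e) (h x))
    rw [← map_sum]
    congr 1
    funext x
    rw [hF, Finset.sum_apply]
  have hFx : ∀ x, F (lhs c x) x =
      ((univ.filter fun e => (h x (s e), h x (t e)) ∈ R e (lhs c x)).card : ℝ) := by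
    intro x
    rw [hF]
    show ∑ e, rel (R e (lhs c x)) (s e) (t e) (h x) = _
    unfold rel
    rw [Finset.sum_ite, Finset.sum_const_zero, add_zero, Finset.sum_const, nsmul_eq_mul, mul_one]
  have h2n : (0 : ℝ) < 2 ^ n := by positivity
  have h2m : (0 : ℝ) < 2 ^ m := by positivity
  have hsum : κ * (Fintype.card E : ℝ) * 2 ^ m ≤ ∑ b, val b := by
    rw [Finset.sum_congr rfl fun b _ => hLF b] at havg
    rw [Finset.sum_congr rfl fun x _ => hFx x] at havg
    have h1 : (κ * (Fintype.card E : ℝ) * 2 ^ m) * 2 ^ n ≤ (∑ b, val b) * 2 ^ n := by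
      rw [havg]
      calc (κ * (Fintype.card E : ℝ) * 2 ^ m) * 2 ^ n =
          2 ^ m * (κ * (Fintype.card E : ℝ) * 2 ^ n) := by ring
        _ ≤ _ := mul_le_mul_of_nonneg_left (by convert hcomp) h2m.le
    exact le_of_mul_le_mul_right h1 h2n
  -- few right-hand sides are near
  obtain ⟨N, hN⟩ : ∃ N : Finset (Fin m → ZMod 2),
    N = univ.filter fun b : Fin m → ZMod 2 => ¬ ∀ x, (1 / 2 - δ) * m ≤ viol c b x := ⟨_, rfl⟩
  have hNc : (N.card : ℝ) ≤ 2 ^ m / 2 ^ n := by
    rw [le_div_iff₀ h2n, hN]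
    exact hnear
  have hcardb : ((univ : Finset (Fin m → ZMod 2)).card : ℝ) = 2 ^ m := by
    rw [card_univ, Fintype.card_fun, ZMod.card, Fintype.card_fin]
    push_cast
    rfl
  have hNN : (N.card : ℝ) + (Nᶜ.card : ℝ) = 2 ^ m := by
    rw [← hcardb]
    exact_mod_cast (Finset.card_add_card_compl N)
  have hfar : ∀ b, b ∈ Nᶜ ↔ ∀ x, (1 / 2 - δ) * m ≤ viol c b x := by
    intro b
    rw [mem_compl, hN, mem_filter]
    simp only [mem_univ, true_and, not_not]
  have hNlt : (N.card : ℝ) < 2 ^ m := by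
    refine lt_of_le_of_lt hNc ?_
    rw [div_lt_iff₀ h2n]
    have h3 : (1 : ℝ) < 2 ^ n := one_lt_pow₀ (by norm_num) (by omega)
    nlinarith
  by_contra hcon
  push Not at hcon
  have hlt : ∀ b ∈ Nᶜ, val b < (κ - 1 / 2 ^ n) * (Fintype.card E : ℝ) := by
    intro b hb
    have h1 := hcon b ((hfar b).1 hb) _ (hmix b)
    rw [hval]
    exact h1
  have hE0 : (0 : ℝ) ≤ Fintype.card E := Nat.cast_nonneg _
  have hNcne : Nᶜ.Nonempty := by
    rw [← card_pos]
    have : (0 : ℝ) < Nᶜ.card := by linarith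
    exact_mod_cast this
  have h1 : ∑ b ∈ Nᶜ, val b < (Nᶜ.card : ℝ) * ((κ - 1 / 2 ^ n) * (Fintype.card E : ℝ)) := by
    calc ∑ b ∈ Nᶜ, val b < ∑ _b ∈ Nᶜ, ((κ - 1 / 2 ^ n) * (Fintype.card E : ℝ)) :=
          Finset.sum_lt_sum_of_nonempty hNcne hlt
      _ = _ := by rw [Finset.sum_const, nsmul_eq_mul]
  have h2 : ∑ b ∈ N, val b ≤ (N.card : ℝ) * Fintype.card E := by
    calc ∑ b ∈ N, val b ≤ ∑ _b ∈ N, (Fintype.card E : ℝ) := Finset.sum_le_sum fun b _ => hval1 b
      _ = _ := by rw [Finset.sum_const, nsmul_eq_mul]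
  have h3 : ∑ b, val b = ∑ b ∈ N, val b + ∑ b ∈ Nᶜ, val b := (Finset.sum_add_sum_compl N _).symm
  obtain ⟨b0, hb0⟩ := hNcne
  have h4 : 0 < (κ - 1 / 2 ^ n) * (Fintype.card E : ℝ) := lt_of_le_of_lt (hval0 b0) (hlt b0 hb0)
  have h5 : (Nᶜ.card : ℝ) * ((κ - 1 / 2 ^ n) * (Fintype.card E : ℝ)) ≤
      2 ^ m * ((κ - 1 / 2 ^ n) * (Fintype.card E : ℝ)) :=
    mul_le_mul_of_nonneg_right (by
      have : (0 : ℝ) ≤ N.card := Nat.cast_nonneg _
      linarith) h4.le
  have h6 : (N.card : ℝ) * Fintype.card E ≤ (2 ^ m / 2 ^ n) * Fintype.card E :=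
    mul_le_mul_of_nonneg_right hNc hE0
  have h7 : 2 ^ m * ((κ - 1 / 2 ^ n) * (Fintype.card E : ℝ)) + (2 ^ m / 2 ^ n) * Fintype.card E =
      κ * (Fintype.card E : ℝ) * 2 ^ m := by
    field_simp
    ring
  linarith

end Pool.Agent.helper747_lr
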